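import Pool.Agent.Helper60.MainC

/-!
T-ideals of the free associative ring that contain an identity `x ^ 3 = x ^ 4 g(x)`, where `g` is
an arbitrary integer polynomial.
-/

noncomputable section

namespace Pool.Agent.Y231.MC

open Pool.Agent.Helper60 Finset

/-- The coefficients after `k` substitutions. -/
def bb (c : ℕ → ℤ) : ℕ → ℕ → ℤ
  | 0 => c
  | k + 1 => fun j => bb c k (j + 1) + bb c k 0 * c j

theorem bb_zero (c : ℕ → ℤ) (N : ℕ) (hc : ∀ j, N ≤ j → c j = 0) (k : ℕ) :
    ∀ j, N ≤ j → bb c k j = 0 := by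
  induction k with
  | zero => exact hc
  | succ k ih =>
    intro j hj
    change bb c k (j + 1) + bb c k 0 * c j = 0
    rw [ih (j + 1) (by omega), hc j hj, mul_zero, add_zero]

theorem bb_spec {Q : Type*} [NonUnitalRing Q] (c : ℕ → ℤ) (N : ℕ) (hc : ∀ j, N ≤ j → c j = 0)
    (x : Q) (h : pw x 2 = ∑ i ∈ range (N + 1), c i • pw x (3 + i)) (k : ℕ) :
    pw x 2 = ∑ j ∈ range (N + 1), bb c k j • pw x (3 + k + j) := by
  induction k with
  | zero => exact h
  | succ k ih =>
    have e1 : pw x (3 + k) = ∑ j ∈ range (N + 1), c j • pw x (3 + (k + 1) + j) := by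
      have e2 : pw x (3 + k) = pw x 2 * pw x k := by
        rw [pw_mul]; congr 1; omega
      rw [e2]
      conv_lhs => rw [h]
      rw [Finset.sum_mul]
      refine Finset.sum_congr rfl (fun j _ => ?_)
      rw [smul_mul_assoc, pw_mul]
      congr 2; omega
    have e3 : ∑ j ∈ range (N + 1), bb c k j • pw x (3 + k + j) =
        ∑ j ∈ range (N + 1), bb c k (j + 1) • pw x (3 + (k + 1) + j) +
          bb c k 0 • pw x (3 + k) := by
      have a1 : ∑ j ∈ range (N + 1), bb c k j • pw x (3 + k + j) =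
          ∑ j ∈ range N, bb c k (j + 1) • pw x (3 + k + (j + 1)) + bb c k 0 • pw x (3 + k + 0) :=
        Finset.sum_range_succ' _ N
      have a2 : ∑ j ∈ range (N + 1), bb c k (j + 1) • pw x (3 + (k + 1) + j) =
          ∑ j ∈ range N, bb c k (j + 1) • pw x (3 + (k + 1) + j) +
            bb c k (N + 1) • pw x (3 + (k + 1) + N) :=
        Finset.sum_range_succ _ N
      rw [a1, a2, bb_zero c N hc k (N + 1) (by omega), zero_smul, add_zero, add_zero]
      congr 1
      refine Finset.sum_congr rfl (fun j _ => ?_)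
      congr 2; omega
    conv_lhs => rw [ih]
    rw [e3, e1, Finset.smul_sum, ← Finset.sum_add_distrib]
    refine Finset.sum_congr rfl (fun j _ => ?_)
    change _ = (bb c k (j + 1) + bb c k 0 * c j) • pw x (3 + (k + 1) + j)
    rw [add_smul, smul_smul]

/-- In the presence of torsion an identity `x ^ 3 = x ^ 4 g(x)` implies `x ^ 3 = x ^ (3 + m)` with
an `m` that depends only on `g` and on the torsion. -/
theorem periodic (c : ℕ → ℤ) (N : ℕ) (hc : ∀ j, N ≤ j → c j = 0) (u : ℕ) (hu : 1 ≤ u) :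
    ∃ m : ℕ, 1 ≤ m ∧ ∀ (Q : Type) [NonUnitalRing Q], (∀ x : Q, (u : ℤ) • x = 0) →
      ∀ x : Q, pw x 2 = ∑ i ∈ range (N + 1), c i • pw x (3 + i) → pw x 2 = pw x (2 + m) := by
  haveI : NeZero u := ⟨by omega⟩
  have hex : ∃ k k' : ℕ, k < k' ∧ ∀ j : Fin (N + 1), ((bb c k j : ℤ) : ZMod u) = (bb c k' j : ℤ) := by
    obtain ⟨k, k', hne, he⟩ := Finite.exists_ne_map_eq_of_infinite
      (fun k : ℕ => fun j : Fin (N + 1) => ((bb c k j : ℤ) : ZMod u))
    rcases lt_or_gt_of_ne hne with h | h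
    · exact ⟨k, k', h, fun j => congrFun he j⟩
    · exact ⟨k', k, h, fun j => (congrFun he j).symm⟩
  obtain ⟨k, k', hlt, he⟩ := hex
  refine ⟨k' - k, by omega, ?_⟩
  intro Q _ hQ x hx
  have h1 := bb_spec c N hc x hx k'
  have h2 := bb_spec c N hc x hx k
  have h3 : ∀ j ∈ range (N + 1), bb c k' j • pw x (3 + k' + j) =
      (bb c k j • pw x (3 + k + j)) * pw x (k' - k - 1) := by
    intro j hj
    have e1 : (bb c k' j - bb c k j) • pw x (3 + k' + j) = 0 := by
      have e2 : ((bb c k' j - bb c k j : ℤ) : ZMod u) = 0 := by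
        push_cast
        rw [he ⟨j, Finset.mem_range.1 hj⟩, sub_self]
      obtain ⟨e, he⟩ := (ZMod.intCast_zmod_eq_zero_iff_dvd _ u).1 e2
      rw [he, mul_comm, mul_smul, hQ, smul_zero]
    rw [sub_smul, sub_eq_zero] at e1
    rw [e1, smul_mul_assoc, pw_mul]
    congr 2; omega
  rw [Finset.sum_congr rfl h3, ← Finset.sum_mul, ← h2, pw_mul] at h1
  rw [h1]
  congr 1; omega

/-- The lowest power is torsion. -/
theorem torsion_const (J : TwoSidedIdeal FR) : ∀ (N : ℕ) (a : ℤ) (c : ℕ → ℤ), a ≠ 0 →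
    (∀ f : FR, a • pw f 2 + ∑ i ∈ range N, c i • pw f (3 + i) ∈ J) →
    ∃ t : ℕ, 1 ≤ t ∧ ∀ f : FR, (t : ℤ) • (f * f * f) ∈ J := by
  intro N
  induction N with
  | zero =>
    intro a c ha h
    refine ⟨a.natAbs, by omega, fun f => ?_⟩
    have h1 := h f
    rw [Finset.range_zero, Finset.sum_empty, add_zero] at h1
    have e : f * f * f = pw f 2 := rfl
    rw [e]
    rcases Int.natAbs_eq a with h2 | h2
    · rw [← h2]; exact h1
    · have h3 : (a.natAbs : ℤ) = - a := by omega
      rw [h3, neg_smul]; exact J.neg_mem h1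
  | succ N ih =>
    intro a c ha h
    refine ih (a * (8 - 2 ^ (4 + N))) (fun i => c i * (2 ^ (4 + i) - 2 ^ (4 + N))) ?_ ?_
    · refine mul_ne_zero ha ?_
      have : (2 : ℤ) ^ 4 ≤ 2 ^ (4 + N) := pow_le_pow_right₀ (by norm_num) (by omega)
      intro h0
      norm_num at this
      linarith
    · intro f
      have h1 := h ((2 : ℤ) • f)
      have h2 := J.sub_mem h1 (J.zsmul_mem ((2 : ℤ) ^ (4 + N)) (h f))
      have e : (a • pw ((2 : ℤ) • f) 2 + ∑ i ∈ range (N + 1), c i • pw ((2 : ℤ) • f) (3 + i)) -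
          (2 : ℤ) ^ (4 + N) • (a • pw f 2 + ∑ i ∈ range (N + 1), c i • pw f (3 + i)) =
          (a * (8 - 2 ^ (4 + N))) • pw f 2 +
            ∑ i ∈ range N, (c i * (2 ^ (4 + i) - 2 ^ (4 + N))) • pw f (3 + i) := by
        rw [Finset.sum_range_succ, Finset.sum_range_succ, smul_add, smul_add, Finset.smul_sum]
        simp only [pw_smul, smul_smul]
        have e1 : ∀ i, 3 + i + 1 = 4 + i := fun i => by omega
        simp only [e1]
        have e2 : ∑ i ∈ range N, (c i * (2 ^ (4 + i) - 2 ^ (4 + N))) • pw f (3 + i) =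
            ∑ i ∈ range N, (c i * 2 ^ (4 + i)) • pw f (3 + i) -
              ∑ i ∈ range N, (2 ^ (4 + N) * c i) • pw f (3 + i) := by
          rw [← Finset.sum_sub_distrib]
          refine Finset.sum_congr rfl (fun i _ => ?_)
          rw [← sub_smul]; congr 1; ring
        rw [e2]
        have e3 : (a * (8 - 2 ^ (4 + N))) • pw f 2 =
            (a * 2 ^ (2 + 1)) • pw f 2 - (2 ^ (4 + N) * a) • pw f 2 := by
          rw [← sub_smul]; congr 1; ring
        rw [e3, mul_comm (c N) (2 ^ (4 + N))]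
        abel
      rw [← e]; exact h2

/-- Ascending chains of T-ideals that contain an identity `x ^ 3 = x ^ 4 g(x)` are stationary. -/
theorem main_chain_gen (N : ℕ) (c : ℕ → ℤ) (I : ℕ → TwoSidedIdeal FR) (hmono : Monotone I)
    (hT : ∀ k, IsT (I k))
    (hid : ∀ f, pw f 2 - ∑ i ∈ range N, c i • pw f (3 + i) ∈ I 0) :
    ∃ K, ∀ k, K ≤ k → I k = I K := by
  obtain ⟨t, ht, htI⟩ := torsion_const (I 0) N 1 (fun i => - c i) one_ne_zero (by
    intro f
    have := hid f
    simp only [neg_smul, Finset.sum_neg_distrib, one_smul]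
    rwa [← sub_eq_add_neg])
  let u : ℕ := 24 * t
  have hu : 1 ≤ u := by simp only [u]; omega
  have h7 : SevenIn (colon (I 0) (u : ℤ)) := by
    intro a b c d e f g
    rw [mem_colon]
    obtain ⟨Q, _, π, hs, hk⟩ := quot_pkg (colon (I 0) (t : ℤ))
    have hQ : ∀ x : Q, x * x * x = 0 := by
      intro q
      obtain ⟨x, rfl⟩ := hs q
      rw [← map_mul, ← map_mul, hk, mem_colon]
      exact htI x
    have h1 := nil_seven hQ (π a) (π b) (π c) (π d) (π e) (π f) (π g)
    rw [← map_mul, ← map_mul, ← map_mul, ← map_mul, ← map_mul, ← map_mul, ← map_zsmul, hk, mem_colon] at h1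
    rw [smul_smul] at h1
    have e1 : ((u : ℕ) : ℤ) = (t : ℤ) * 24 := by simp only [u]; push_cast; ring
    rw [e1]; exact h1
  let c' : ℕ → ℤ := fun j => if j < N then c j else 0
  obtain ⟨m, hm, hper⟩ := periodic c' N (fun j hj => if_neg (by omega)) u hu
  refine colon_plus_stab hmono (u : ℤ) ?_ ?_
  · exact seven_case (fun k => colon (I k) (u : ℤ)) (fun a b h => colon_mono (hmono h) _)
      (fun k => IsT_colon (hT k) _) h7
  · have huI : ∀ f, (u : ℤ) • f ∈ plusm (I 0) (u : ℤ) := fun f =>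
      mem_plusm.mpr ⟨0, (I 0).zero_mem, f, by simp⟩
    refine torsion_case m hm u hu (fun k => plusm (I k) (u : ℤ)) (fun a b h => plusm_mono (hmono h) _)
      (fun k => IsT_plusm (hT k) _) huI ?_
    intro f
    obtain ⟨Q, _, π, hs, hk⟩ := quot_pkg (plusm (I 0) (u : ℤ))
    rw [← hk, map_sub, sub_eq_zero, pw_map, pw_map]
    refine hper Q (fun q => ?_) (π f) ?_
    · obtain ⟨x, rfl⟩ := hs q
      rw [← map_zsmul, hk]
      exact huI x
    · have h1 : pw f 2 - ∑ i ∈ range N, c i • pw f (3 + i) ∈ plusm (I 0) (u : ℤ) :=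
        mem_plusm.mpr ⟨_, hid f, 0, by simp⟩
      rw [← hk, map_sub, sub_eq_zero, pw_map, map_sum] at h1
      rw [h1, Finset.sum_range_succ]
      have e0 : c' N = 0 := if_neg (lt_irrefl N)
      rw [e0, zero_smul, add_zero]
      refine Finset.sum_congr rfl (fun i hi => ?_)
      rw [map_zsmul, pw_map]
      congr 1
      exact (if_pos (Finset.mem_range.1 hi)).symm

end Pool.Agent.Y231.MC
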